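import Pool.Agent.K4H92.HD.Slalom

/-!
# `𝔟(∈*_ℳ) ≤ ℵ₂` unless there is a Rothberger type family of meagre sets

The definitions are in `Pool/Agent/K4H92/HD/Core.lean` (`BS`), `Pool/Agent/K4H92/HD/Main.lean`
(`meagreSets`) and `Pool/Agent/K4H92/HD/Slalom.lean` (`IsSlalom`, `Capt`, `bIn`).

Proof. Let `e_x` be injections from the initial segments of `𝔠 = ω₂` to `ω₁` and consider the
functions `f_ξ(x) = t(e_x(ξ))` (`ξ < x`), where Baire space is identified with `ω₂`. If they are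
bounded by `g`, then the sets `X_ξ = {x : f_ξ(x) ∉* g(x)} ∪ {x : x ≤ ξ}` are meagre and each
`x` is in all but countably many of them.
-/

set_option autoImplicit false

open Cardinal

namespace Pool.Agent.Results.MP_2224d9_lc.LaverDichotomy

open Pool.Agent.K4H92.HD

/-- Suppose that `𝔠 = ℵ₂`, that all sets of size at most `ℵ₁` are meagre (`non(ℳ) = ℵ₂`) and that
there is a family `(t_j)` of `ℵ₁` reals such that each slalom captures only countably many of the
`t_j`. (All this holds in the Laver model.) Then `𝔟(∈*_ℳ) ≤ ℵ₂`, or there are meagre sets `X_α`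
(`α < ω₂`, the initial ordinal of `𝔠`) such that each `x` is in all but countably many `X_α`. -/
theorem result (hc : (𝔠 : Cardinal.{0}) = ℵ_ 2)
    (hnon : ∀ S : Set BS, #S ≤ ℵ_ 1 → IsMeagre S)
    (ht : ∃ (Ω : Type) (t : Ω → BS), #Ω = ℵ_ 1 ∧
      ∀ s : ℕ → Finset ℕ, IsSlalom s → {j | Capt (t j) s}.Countable) :
    bIn meagreSets ≤ ℵ_ 2 ∨ ∃ X : (𝔠 : Cardinal.{0}).ord.ToType → Set BS,
      (∀ α, IsMeagre (X α)) ∧ ∀ x, {α | x ∉ X α}.Countable := by
  have h2 : (ℵ_ 2 : Cardinal.{0}) = Order.succ ℵ₁ := by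
    rw [succ_aleph, one_add_one_eq_two]
  obtain ⟨Ω, t, hΩ, ht⟩ := ht
  rw [h2]
  exact dichotomy (hc.trans h2) hnon Ω hΩ t ht

end Pool.Agent.Results.MP_2224d9_lc.LaverDichotomy
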